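import Mathlib
import Pool.Agent.H759R2.Kad.Defs
import Pool.Agent.H759R2.Kad.Props
import Pool.Agent.H759R2.Kad.Props2
import Pool.Agent.H759R2.Kad.Props3

/-!
Definitions for the theorem: bounded homomorphisms of fibres of von Neumann algebras are
completely bounded.
-/

open scoped ComplexOrder InnerProductSpace ComplexConjugate
open Finset

noncomputable section

namespace H711R2.KG

open H759R2.Kad

universe u v

section defs

variable {B : Type u} [CStarAlgebra B]

/-- Self-adjoint idempotent. -/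
def IsPrj (p : B) : Prop := star p = p ∧ p * p = p

/-- Murray-von Neumann subordination `p ≾ q`: there is a partial isometry from `p` into `q`. -/
def Sub (p q : B) : Prop := ∃ v : B, star v * v = p ∧ q * v = v

/-- Murray-von Neumann equivalence. -/
def Eqv (p q : B) : Prop := ∃ v : B, star v * v = p ∧ v * star v = q

/-- Mutually orthogonal projections below `e`. -/
def OrthIn (e : B) {I : Type} (g : I → B) : Prop :=
  (∀ i, IsPrj (g i) ∧ e * g i = g i) ∧ ∀ i j, i ≠ j → g i * g j = 0

/-- `e` does not dominate `K` nonzero mutually orthogonal projections. -/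
def Small (e : B) (K : ℕ) : Prop := ∀ g : Fin K → B, OrthIn e g → ∃ i, g i = 0

/-- Minimal projection. -/
def IsMin (g : B) : Prop := IsPrj g ∧ g ≠ 0 ∧ ∀ p, IsPrj p → g * p = p → p = 0 ∨ p = g

/-- There are arbitrarily large finite sets of unitaries that are nearly orthogonal for `τ`. -/
def HasOrthA (τ : B →ₗ[ℂ] ℂ) : Prop :=
  ∀ (K : ℕ) (δ : ℝ), 0 < δ → ∃ h : Fin K → unitary B, ∀ i j, i ≠ j →
    ‖τ (star (h i : B) * (h j : B))‖ ≤ δ

variable [PartialOrder B] [StarOrderedRing B]

/-- `p` is a spectral projection of the self-adjoint element `a` of the corner of `e`, for the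
half-line above `t`. -/
def IsSpec (e a : B) (t : ℝ) (p : B) : Prop :=
  IsPrj p ∧ e * p = p ∧ p * a = a * p ∧ t • p ≤ p * a ∧ (e - p) * a ≤ t • (e - p)

end defs

/-- The properties of von Neumann algebras that are used. -/
structure IsVN (M : Type u) [CStarAlgebra M] [PartialOrder M] [StarOrderedRing M] : Prop where
  spec : ∀ e : M, IsPrj e → ∀ a : M, IsSelfAdjoint a → e * a = a → ∀ t : ℝ, ∃ p, IsSpec e a t p
  comp : ∀ p q : M, IsPrj p → IsPrj q → ∃ z : M, IsPrj z ∧ (∀ a, z * a = a * z) ∧
    Sub (z * p) (z * q) ∧ Sub ((1 - z) * q) ((1 - z) * p)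
  half : ∀ e : M, IsPrj e → ∃ v : M, e * v = v ∧ v * e = v ∧ v * v = 0 ∧
    IsPrj (star v * v) ∧ ∀ p : M, IsPrj p → (e - star v * v - v * star v) * p = p →
      ∃ z : M, IsPrj z ∧ (∀ a, z * a = a * z) ∧ p = z * (e - star v * v - v * star v)

/-- The properties of fibres of von Neumann algebras that are used. -/
structure IsFib (B : Type u) [CStarAlgebra B] [PartialOrder B] [StarOrderedRing B] : Prop where
  nontriv : (1 : B) ≠ 0
  spec : ∀ e : B, IsPrj e → ∀ a : B, IsSelfAdjoint a → e * a = a → ∀ t : ℝ, ∃ p, IsSpec e a t p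
  comp : ∀ p q : B, IsPrj p → IsPrj q → Sub p q ∨ Sub q p
  half : ∀ e : B, IsPrj e → ∃ v : B, e * v = v ∧ v * e = v ∧ v * v = 0 ∧
    IsPrj (star v * v) ∧ ∀ p : B, IsPrj p → (e - star v * v - v * star v) * p = p →
      p = 0 ∨ p = e - star v * v - v * star v

/-- `ι : C → B` is (an isometric copy of) the inclusion of the corner `e B e`. -/
structure IsCor {C : Type u} [CStarAlgebra C] {B : Type u} [CStarAlgebra B]
    (ι : C →⋆ₙₐ[ℂ] B) (e : B) : Prop where
  prj : IsPrj e
  norm : ∀ c, ‖ι c‖ = ‖c‖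
  one : ι 1 = e
  surj : ∀ x, e * x * e = x → ∃ c, ι c = x

end H711R2.KG
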