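import Mathlib
import Pool.Agent.H711R2.KG.Defs
import Pool.Agent.H759R2.Kad.Props5

/-!
Statements of the pieces of the theorem: bounded homomorphisms of fibres of von Neumann algebras
are completely bounded. All index types live in `Type`.
-/

open scoped ComplexOrder InnerProductSpace ComplexConjugate
open Finset

noncomputable section

namespace H711R2.KG

open H759R2.Kad

universe u v

/-! ### (A) Algebras without tracial state -/

/-- Families of elements with `∑ r* r = 1` and `∑ r r*` arbitrarily small. -/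
def HasWords (B : Type u) [CStarAlgebra B] : Prop :=
  ∀ ε : ℝ, 0 < ε → ∃ (N : ℕ) (s : Fin N → B),
    ∑ i, star (s i) * s i = 1 ∧ ‖∑ i, s i * star (s i)‖ ≤ ε

/-- Hahn-Banach: without tracial state some sum of self-commutators is strictly positive. -/
def A_hb : Prop :=
  ∀ (B : Type u) [CStarAlgebra B] [PartialOrder B] [StarOrderedRing B],
    (¬ ∃ τ : B →ₗ[ℂ] ℂ, IsTracialState τ) →
    ∃ (n : ℕ) (a : Fin n → B) (δ : ℝ), 0 < δ ∧
      ∑ i, a i * star (a i) + δ • (1 : B) ≤ ∑ i, star (a i) * a i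

/-- Normalisation. -/
def A_fam : Prop :=
  ∀ (B : Type u) [CStarAlgebra B] [PartialOrder B] [StarOrderedRing B]
    (n : ℕ) (a : Fin n → B) (δ : ℝ), 0 < δ →
    ∑ i, a i * star (a i) + δ • (1 : B) ≤ ∑ i, star (a i) * a i →
    ∃ (k : ℕ) (r : Fin k → B) (ρ : ℝ), 0 ≤ ρ ∧ ρ < 1 ∧ ∑ i, star (r i) * r i = 1 ∧
      ‖∑ i, r i * star (r i)‖ ≤ ρ

/-- Words. -/
def A_word : Prop :=
  ∀ (B : Type u) [CStarAlgebra B] [PartialOrder B] [StarOrderedRing B]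
    (k : ℕ) (r : Fin k → B) (ρ : ℝ), 0 ≤ ρ → ρ < 1 → ∑ i, star (r i) * r i = 1 →
    ‖∑ i, r i * star (r i)‖ ≤ ρ → HasWords B

/-- Column and row bounds. -/
def A_col : Prop :=
  ∀ (B : Type u) [CStarAlgebra B] [PartialOrder B] [StarOrderedRing B]
    (K : Type v) [NormedAddCommGroup K] [InnerProductSpace ℂ K] [CompleteSpace K]
    (w : B →ₗ[ℂ] (K →L[ℂ] K)), IsHom w → ∀ c : ℝ, 0 ≤ c → (∀ b, ‖w b‖ ≤ c * ‖b‖) →
    HasWords B → ∀ (κ : Type) [Fintype κ] (a : κ → B),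
      (∀ ζ : K, ∑ k, ‖w (a k) ζ‖ ^ 2 ≤ 9 * c ^ 4 * ‖∑ k, star (a k) * a k‖ * ‖ζ‖ ^ 2) ∧
      (∀ ξ : κ → K, ‖∑ k, w (a k) (ξ k)‖ ^ 2 ≤
        9 * c ^ 4 * ‖∑ k, a k * star (a k)‖ * ∑ k, ‖ξ k‖ ^ 2)

/-- All level bounds. -/
def A_mat : Prop :=
  ∀ (B : Type u) [CStarAlgebra B] [PartialOrder B] [StarOrderedRing B]
    (K : Type v) [NormedAddCommGroup K] [InnerProductSpace ℂ K] [CompleteSpace K]
    (w : B →ₗ[ℂ] (K →L[ℂ] K)), IsHom w → ∀ c : ℝ, 0 ≤ c → (∀ b, ‖w b‖ ≤ c * ‖b‖) →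
    HasWords B → ∀ m : ℕ, LvlBd w m (16 * c ^ 4)

/-! ### (B) Structure of fibre algebras -/

/-- One averaging step. -/
def B_step : Prop :=
  ∀ (B : Type u) [CStarAlgebra B] [PartialOrder B] [StarOrderedRing B], IsFib B →
    ∀ (a : B) (α β : ℝ), IsSelfAdjoint a → α ≤ β → α • (1 : B) ≤ a → a ≤ β • (1 : B) →
    ∃ (w : unitary B) (α' β' : ℝ), α' ≤ β' ∧ β' - α' ≤ 3 / 4 * (β - α) ∧
      α' • (1 : B) ≤ (1 / 2 : ℝ) • (a + (w : B) * a * star (w : B)) ∧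
      (1 / 2 : ℝ) • (a + (w : B) * a * star (w : B)) ≤ β' • (1 : B)

/-- Dixmier property. -/
def B_dix : Prop :=
  ∀ (B : Type u) [CStarAlgebra B] [PartialOrder B] [StarOrderedRing B], IsFib B →
    ∀ τ : B →ₗ[ℂ] ℂ, IsTracialState τ → HasDixmier τ

/-- Corners of minimal projections. -/
def B_scal : Prop :=
  ∀ (B : Type u) [CStarAlgebra B] [PartialOrder B] [StarOrderedRing B], IsFib B →
    ∀ g : B, IsMin g → ∀ x : B, ∃ l : ℂ, g * x * g = l • g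

/-- Minimal projections are subordinate to all nonzero projections. -/
def B_minle : Prop :=
  ∀ (B : Type u) [CStarAlgebra B] [PartialOrder B] [StarOrderedRing B], IsFib B →
    ∀ g : B, IsMin g → ∀ q : B, IsPrj q → q ≠ 0 → Sub g q

/-- Small projections are sums of minimal projections. -/
def B_minsum : Prop :=
  ∀ (B : Type u) [CStarAlgebra B] (e : B) (K : ℕ), IsPrj e → e ≠ 0 → Small e K →
    ∃ (n : ℕ) (g : Fin n → B), 0 < n ∧ OrthIn e g ∧ ∑ i, g i = e ∧ ∀ i, IsMin (g i)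

/-- Traces of subordinate projections. -/
def T_sub : Prop :=
  ∀ (B : Type u) [CStarAlgebra B] [PartialOrder B] [StarOrderedRing B] (τ : B →ₗ[ℂ] ℂ),
    IsTracialState τ → (∀ p : B, IsPrj p → 0 ≤ (τ p).re ∧ (τ p).im = 0 ∧ (τ p).re ≤ 1) ∧
    (∀ p q : B, IsPrj p → IsPrj q → Sub p q → (τ p).re ≤ (τ q).re) ∧
    (∀ p q : B, Eqv p q → τ p = τ q) ∧
    ∀ (e : B) (I : Type) [Fintype I] (g : I → B), IsPrj e → OrthIn e g →
      IsPrj (∑ i, g i) ∧ ∑ i, (τ (g i)).re ≤ (τ e).re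

/-- A minimal projection with nonzero trace makes the unit small. -/
def B_trsmall : Prop :=
  ∀ (B : Type u) [CStarAlgebra B] [PartialOrder B] [StarOrderedRing B], IsFib B →
    ∀ τ : B →ₗ[ℂ] ℂ, IsTracialState τ → ∀ g : B, IsMin g → (τ g).re ≠ 0 →
    ∃ K : ℕ, Small (1 : B) K

/-- Matrix algebras. -/
def B_mat : Prop :=
  ∀ (B : Type u) [CStarAlgebra B] [PartialOrder B] [StarOrderedRing B], IsFib B →
    ∀ (n : ℕ) (g : Fin n → B), 0 < n → OrthIn (1 : B) g → ∑ i, g i = 1 → (∀ i, IsMin (g i)) →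
    Nonempty (B ≃⋆ₐ[ℂ] CStarMatrix (Fin n) (Fin n) ℂ)

/-- Homomorphisms of matrix algebras. -/
def B_fin : Prop :=
  ∀ (n : ℕ) (H : Type v) [NormedAddCommGroup H] [InnerProductSpace ℂ H] [CompleteSpace H]
    (u : CStarMatrix (Fin n) (Fin n) ℂ →ₗ[ℂ] (H →L[ℂ] H)), IsHom u → ∀ c : ℝ, 0 ≤ c →
    (∀ X, ‖u X‖ ≤ c * ‖X‖) → ∀ m : ℕ, LvlBd u m (c ^ 2)

/-- Homomorphisms of small algebras. -/
def B_small : Prop :=
  ∀ (B : Type u) [CStarAlgebra B] [PartialOrder B] [StarOrderedRing B], IsFib B →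
    ∀ K : ℕ, Small (1 : B) K →
    ∀ (H : Type v) [NormedAddCommGroup H] [InnerProductSpace ℂ H] [CompleteSpace H]
      (u : B →ₗ[ℂ] (H →L[ℂ] H)), IsHom u → ∀ c : ℝ, 0 ≤ c → (∀ X, ‖u X‖ ≤ c * ‖X‖) →
    ∀ m : ℕ, LvlBd u m (c ^ 2)

/-- Repeated halving. -/
def B_dk : Prop :=
  ∀ (B : Type u) [CStarAlgebra B] [PartialOrder B] [StarOrderedRing B], IsFib B →
    ∀ (k : ℕ) (e : B), IsPrj e → ∃ (f : Fin (2 ^ k) → B) (N : ℕ) (g : Fin N → B),
      OrthIn e f ∧ OrthIn e g ∧ (∀ i j, f i * g j = 0) ∧ ∑ i, f i + ∑ j, g j = e ∧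
      (∀ i j, Eqv (f i) (f j)) ∧ ∀ j, g j = 0 ∨ IsMin (g j)

/-- The decomposition used in the infinite dimensional case. -/
def IsDec {B : Type u} [CStarAlgebra B] (τ : B →ₗ[ℂ] ℂ) (k : ℕ) (f : Fin (2 ^ k) → B) (r : B) :
    Prop :=
  OrthIn (1 : B) f ∧ IsPrj r ∧ (∀ i, f i * r = 0) ∧ ∑ i, f i + r = 1 ∧
    (∀ i j, Eqv (f i) (f j)) ∧ (∀ i, Sub r (f i)) ∧ (∀ i, 0 < (τ (f i)).re) ∧
    ∀ i K, ¬ Small (f i) K

def B_dich : Prop :=
  ∀ (B : Type u) [CStarAlgebra B] [PartialOrder B] [StarOrderedRing B], IsFib B →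
    ∀ τ : B →ₗ[ℂ] ℂ, IsTracialState τ → (∀ K : ℕ, ¬ Small (1 : B) K) →
    ∀ k : ℕ, ∃ (f : Fin (2 ^ k) → B) (r : B), IsDec τ k f r

/-- Nearly orthogonal unitaries. -/
def B_orth : Prop :=
  ∀ (B : Type u) [CStarAlgebra B] [PartialOrder B] [StarOrderedRing B]
    (τ : B →ₗ[ℂ] ℂ), IsTracialState τ →
    (∀ k : ℕ, ∃ (f : Fin (2 ^ k) → B) (r : B), IsDec τ k f r) → HasOrthA τ

/-! ### (C) Corners -/

/-- Corners exist as C*-algebras. -/
def C_exists : Prop :=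
  ∀ (B : Type u) [CStarAlgebra B] [PartialOrder B] [StarOrderedRing B] (e : B), IsPrj e →
    ∃ (C : Type u) (_ : CStarAlgebra C) (_ : PartialOrder C) (_ : StarOrderedRing C)
      (ι : C →⋆ₙₐ[ℂ] B), IsCor ι e

/-- Order in a corner. -/
def C_ord : Prop :=
  ∀ (B : Type u) [CStarAlgebra B] [PartialOrder B] [StarOrderedRing B]
    (C : Type u) [CStarAlgebra C] [PartialOrder C] [StarOrderedRing C]
    (ι : C →⋆ₙₐ[ℂ] B) (e : B), IsCor ι e → ∀ x y : C, ι x ≤ ι y ↔ x ≤ y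

/-- Corners of fibre algebras are fibre algebras. -/
def C_fib : Prop :=
  ∀ (B : Type u) [CStarAlgebra B] [PartialOrder B] [StarOrderedRing B]
    (C : Type u) [CStarAlgebra C] [PartialOrder C] [StarOrderedRing C]
    (ι : C →⋆ₙₐ[ℂ] B) (e : B), IsCor ι e → e ≠ 0 → IsFib B →
    IsFib C ∧ ∀ K : ℕ, Small (1 : C) K → Small e K

/-- Traces on corners. -/
def C_tr : Prop :=
  ∀ (B : Type u) [CStarAlgebra B] [PartialOrder B] [StarOrderedRing B]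
    (C : Type u) [CStarAlgebra C] [PartialOrder C] [StarOrderedRing C]
    (ι : C →⋆ₙₐ[ℂ] B) (e : B) (τ : B →ₗ[ℂ] ℂ), IsCor ι e → IsTracialState τ → 0 < (τ e).re →
    ∃ τ' : C →ₗ[ℂ] ℂ, IsTracialState τ'

/-- Matrix units. -/
def C_units : Prop :=
  ∀ (B : Type u) [CStarAlgebra B] [PartialOrder B] [StarOrderedRing B]
    (C : Type u) [CStarAlgebra C] [PartialOrder C] [StarOrderedRing C]
    (L : ℕ) (f : Fin L → B) (i₀ : Fin L) (ι : C →⋆ₙₐ[ℂ] B), IsCor ι (f i₀) →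
    OrthIn (1 : B) f → (∀ i j, Eqv (f i) (f j)) →
    ∃ Φ : CStarMatrix (Fin L) (Fin L) C →⋆ₙₐ[ℂ] B, IsCor Φ (∑ i, f i)

/-- From a corner `e B e` to `B` when `1 - e ≾ e`. -/
def C_ext : Prop :=
  ∀ (B : Type u) [CStarAlgebra B] [PartialOrder B] [StarOrderedRing B]
    (D : Type u) [CStarAlgebra D] [PartialOrder D] [StarOrderedRing D]
    (Φ : D →⋆ₙₐ[ℂ] B) (e : B), IsCor Φ e → Sub (1 - e) e →
    ∀ (H : Type v) [NormedAddCommGroup H] [InnerProductSpace ℂ H] [CompleteSpace H]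
      (u : B →ₗ[ℂ] (H →L[ℂ] H)), IsHom u → ∀ c R : ℝ, 0 ≤ c → 0 ≤ R →
    (∀ b, ‖u b‖ ≤ c * ‖b‖) → ∀ m : ℕ,
    (∀ (K : Type v) [NormedAddCommGroup K] [InnerProductSpace ℂ K] [CompleteSpace K]
      (w : D →ₗ[ℂ] (K →L[ℂ] K)), IsHom w → (∀ b, ‖w b‖ ≤ c * ‖b‖) → LvlBd w (2 * m) R) →
    LvlBd u m (2 * c ^ 2 * R)

/-! ### (K) The theorem of helper759 with nearly orthogonal unitaries -/

def KA_final : Prop :=
  ∀ (B : Type u) [CStarAlgebra B] [PartialOrder B] [StarOrderedRing B] (τ : B →ₗ[ℂ] ℂ),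
    IsTracialState τ → HasDixmier τ → HasOrthA τ →
    ∀ (H : Type v) [NormedAddCommGroup H] [InnerProductSpace ℂ H] [CompleteSpace H] (L m : ℕ),
    0 < m → 25920 * m ^ 11 ≤ L → ∀ (u : CStarMatrix (Fin L) (Fin L) B →ₗ[ℂ] (H →L[ℂ] H)),
    IsHom u → ∀ c : ℝ, 1 ≤ c → (∀ X, ‖u X‖ ≤ c * ‖X‖) → LvlBd u m (216 * c ^ 23)

/-- The theorem for fibre algebras. -/
def G_fib : Prop :=
  ∀ (B : Type u) [CStarAlgebra B] [PartialOrder B] [StarOrderedRing B], IsFib B →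
    ∀ (H : Type v) [NormedAddCommGroup H] [InnerProductSpace ℂ H] [CompleteSpace H]
      (u : B →ₗ[ℂ] (H →L[ℂ] H)), IsHom u → ∀ c : ℝ, 1 ≤ c → (∀ X, ‖u X‖ ≤ c * ‖X‖) →
    ∀ m : ℕ, LvlBd u m (432 * c ^ 25)

/-! ### (V) Von Neumann algebras and their fibres -/

section vn

/-- Spectral projections. -/
def V_spec : Prop :=
  ∀ (H : Type u) [NormedAddCommGroup H] [InnerProductSpace ℂ H] [CompleteSpace H]
    (M : VonNeumannAlgebra H), ∀ e ∈ M, IsPrj e → ∀ a ∈ M, IsSelfAdjoint a → e * a = a →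
    ∀ t : ℝ, ∃ p ∈ M, IsSpec e a t p

/-- Separation of projections by a central projection. -/
def V_cent : Prop :=
  ∀ (H : Type u) [NormedAddCommGroup H] [InnerProductSpace ℂ H] [CompleteSpace H]
    (M : VonNeumannAlgebra H), ∀ p ∈ M, ∀ q ∈ M, IsPrj p → IsPrj q →
    (∀ a ∈ M, q * a * p = 0) →
    ∃ z ∈ M, IsPrj z ∧ (∀ a ∈ M, z * a = a * z) ∧ z * p = p ∧ z * q = 0

/-- Generalised comparability. -/
def V_comp : Prop :=
  ∀ (H : Type u) [NormedAddCommGroup H] [InnerProductSpace ℂ H] [CompleteSpace H]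
    (M : VonNeumannAlgebra H), ∀ p ∈ M, ∀ q ∈ M, IsPrj p → IsPrj q →
    ∃ z ∈ M, IsPrj z ∧ (∀ a ∈ M, z * a = a * z) ∧
      (∃ v ∈ M, star v * v = z * p ∧ z * q * v = v) ∧
      ∃ v ∈ M, star v * v = (1 - z) * q ∧ (1 - z) * p * v = v

/-- Halving up to an abelian projection. -/
def V_half : Prop :=
  ∀ (H : Type u) [NormedAddCommGroup H] [InnerProductSpace ℂ H] [CompleteSpace H]
    (M : VonNeumannAlgebra H), ∀ e ∈ M, IsPrj e → ∃ v ∈ M, e * v = v ∧ v * e = v ∧ v * v = 0 ∧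
      IsPrj (star v * v) ∧ ∀ p ∈ M, IsPrj p → (e - star v * v - v * star v) * p = p →
      ∃ z ∈ M, IsPrj z ∧ (∀ a ∈ M, z * a = a * z) ∧ p = z * (e - star v * v - v * star v)

/-- Concrete von Neumann algebras. -/
def V_main : Prop :=
  ∀ (H : Type u) [NormedAddCommGroup H] [InnerProductSpace ℂ H] [CompleteSpace H]
    (M : VonNeumannAlgebra H) [PartialOrder M.toStarSubalgebra]
    [StarOrderedRing M.toStarSubalgebra], IsVN M.toStarSubalgebra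

/-- Lifting of projections. -/
def Q_lift : Prop :=
  ∀ (M : Type u) [CStarAlgebra M] [PartialOrder M] [StarOrderedRing M]
    (B : Type u) [CStarAlgebra B] [PartialOrder B] [StarOrderedRing B] (φ : M →⋆ₐ[ℂ] B),
    IsVN M → Function.Surjective φ → ∀ e : M, IsPrj e → ∀ q : B, IsPrj q → φ e * q = q →
    ∃ p : M, IsPrj p ∧ e * p = p ∧ φ p = q

/-- Images of von Neumann algebras whose centre becomes scalar are fibre algebras. -/
def Q_fib : Prop :=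
  ∀ (M : Type u) [CStarAlgebra M] [PartialOrder M] [StarOrderedRing M]
    (B : Type u) [CStarAlgebra B] [PartialOrder B] [StarOrderedRing B] (φ : M →⋆ₐ[ℂ] B),
    IsVN M → Function.Surjective φ → (1 : B) ≠ 0 →
    (∀ z : M, (∀ a, z * a = a * z) → ∃ l : ℂ, φ z = algebraMap ℂ B l) → IsFib B

end vn

end H711R2.KG
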