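import Mathlib
import Pool.Agent.H711R2.KG.Props

/-!
The chain of statements of helper759's theorem with nearly orthogonal unitaries.
-/

open scoped ComplexOrder InnerProductSpace ComplexConjugate
open Finset

noncomputable section

namespace H711R2.KG

open H759R2.Kad

universe u v

/-- One family. -/
def KA_fam1 : Prop :=
  ∀ (B : Type u) [CStarAlgebra B] [PartialOrder B] [StarOrderedRing B] (τ : B →ₗ[ℂ] ℂ),
    IsTracialState τ → HasDixmier τ → HasOrthA τ → ∀ (Y : Set B), Y.Finite → ∀ ε : ℝ, 0 < ε →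
    ∃ (k : ℕ) (g : Fin (k + 1) → unitary B),
      (∀ y ∈ Y, ‖((k + 1 : ℂ))⁻¹ • ∑ s, star (g s : B) * y * (g s : B) -
          algebraMap ℂ B (τ y)‖ ≤ ε ∧
        ‖((k + 1 : ℂ))⁻¹ • ∑ s, (g s : B) * y * star (g s : B) - algebraMap ℂ B (τ y)‖ ≤ ε) ∧
      ∀ y : B, ‖((k + 1 : ℂ))⁻¹ • ∑ s, τ (y * star (g s : B)) • (g s : B)‖ ≤ ε * ‖y‖ ∧
        ‖((k + 1 : ℂ))⁻¹ • ∑ s, τ (y * (g s : B)) • star (g s : B)‖ ≤ ε * ‖y‖

/-- Successive choice of the families. -/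
def KA_fam : Prop :=
  ∀ (B : Type u) [CStarAlgebra B] [PartialOrder B] [StarOrderedRing B] (τ : B →ₗ[ℂ] ℂ),
    IsTracialState τ → HasDixmier τ → HasOrthA τ → ∀ (n : ℕ) (X : Set B), X.Finite →
    ∀ (K : ℕ) (ε : ℝ), 0 < ε → ∃ F : Fam B n, F.Good τ X K ε

/-- Existence of the random unitaries. -/
def KA_rand : Prop :=
  ∀ (B : Type u) [CStarAlgebra B] [PartialOrder B] [StarOrderedRing B] (τ : B →ₗ[ℂ] ℂ),
    IsTracialState τ → HasDixmier τ → HasOrthA τ → ∀ (n Q R : ℕ) [NeZero R], Q < R →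
    ∀ x : CStarMatrix (Fin n) (Fin n) B, x ∈ unitary (CStarMatrix (Fin n) (Fin n) B) →
    ∀ δ : ℝ, (∀ i j, pmat τ x i j ≤ δ) → ∀ ε : ℝ, 0 < ε →
    ∃ (Ω : Type) (_ : Fintype Ω) (_ : Nonempty Ω) (G : Ω → Fin n → unitary B),
      ∀ k, k < Q → GramOK Ω G x R k ε (Q ^ 2 * δ) ∧
        GramOK Ω (fun s c => star (G s c)) (star x) R k ε (Q ^ 2 * δ)

/-- The bound on flat unitaries. -/
def KA_unit : Prop :=
  ∀ (B : Type u) [CStarAlgebra B] [PartialOrder B] [StarOrderedRing B]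
    (K : Type v) [NormedAddCommGroup K] [InnerProductSpace ℂ K] [CompleteSpace K]
    (w : B →ₗ[ℂ] (K →L[ℂ] K)) (τ : B →ₗ[ℂ] ℂ), IsHom w → IsTracialState τ → HasDixmier τ →
    HasOrthA τ → ∀ γ : ℝ, 1 ≤ γ → (∀ b, ‖w b‖ ≤ γ * ‖b‖) →
    ∀ L m : ℕ, 0 < m → 25920 * m ^ 11 ≤ L → LvlBd w L γ →
    ∀ x : CStarMatrix (Fin (m * L)) (Fin (m * L)) B,
      x ∈ unitary (CStarMatrix (Fin (m * L)) (Fin (m * L)) B) →
      (∀ i j, pmat τ x i j ≤ 1 / (12 * m ^ 4)) →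
      ‖amp w (Fin (m * L)) x‖ ≤ 108 * γ ^ 7

/-- The main inequality. -/
def KA_main : Prop :=
  ∀ (B : Type u) [CStarAlgebra B] [PartialOrder B] [StarOrderedRing B]
    (K : Type v) [NormedAddCommGroup K] [InnerProductSpace ℂ K] [CompleteSpace K]
    (w : B →ₗ[ℂ] (K →L[ℂ] K)) (τ : B →ₗ[ℂ] ℂ), IsHom w → IsTracialState τ → HasDixmier τ →
    HasOrthA τ → ∀ γ : ℝ, 1 ≤ γ → (∀ b, ‖w b‖ ≤ γ * ‖b‖) →
    ∀ L m : ℕ, 0 < m → 25920 * m ^ 11 ≤ L → LvlBd w L γ → LvlBd w (m * L) (216 * γ ^ 7)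

end H711R2.KG
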