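import Mathlib
import Pool.Agent.H711R2.KG.KAProps
import Pool.Agent.H804R2.Kad3.Fam1
import Pool.Agent.H747R2.Kad3.Fam
import Pool.Agent.H627R2.Kad3.Rand
import Pool.Agent.H114R2.Kad3.Unit
import Pool.Agent.H457R2.Kad3.Main24
import Pool.Agent.H8R2.Kad3.Final

open scoped ComplexOrder InnerProductSpace ComplexConjugate
open Finset

noncomputable section

namespace H711R2.KG

open H759R2.Kad

universe u v

open H759R2.Kad.A02 in
theorem proveA_fam (h : KA_fam1.{u}) : KA_fam.{u} := by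
  intro B _ _ _ τ hτ hD hO n X hX K ε hε
  induction n with
  | zero =>
    refine ⟨⟨fun c => c.elim0, fun c => c.elim0⟩, ?_⟩
    exact ⟨fun c => c.elim0, fun c => c.elim0, fun c => c.elim0, fun c => c.elim0⟩
  | succ n ih =>
    obtain ⟨F, hF⟩ := ih
    obtain ⟨k, g, hg1, hg2⟩ := h B τ hτ hD hO (Words X (ofFam F) K)
      (words_finite hX (ofFam F) K) ε hε
    set φ : Fin (n + 1) → Sg B := Fin.snoc (α := fun _ => Sg B) (ofFam F) ⟨k, g⟩ with hφ
    have hφ1 : ∀ c : Fin n, φ c.castSucc = ofFam F c := fun c => by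
      rw [hφ, Fin.snoc_castSucc]
    have hφ2 : φ (Fin.last n) = ⟨k, g⟩ := by rw [hφ, Fin.snoc_last]
    refine ⟨toFam φ, good_iff φ τ X K ε ?_ ?_⟩
    · intro c y hy
      induction c using Fin.lastCases with
      | last =>
        rw [hφ2]
        apply hg1 y
        obtain ⟨l, hl, hy2, h3⟩ := hy
        refine ⟨l, hl, hy2, ?_⟩
        intro a ha
        rcases h3 a ha with h4 | h4 | ⟨b, hb, h4⟩
        · exact Or.inl h4
        · exact Or.inr (Or.inl h4)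
        · right; right
          have h5 : Mem a (φ b) := h4
          induction b using Fin.lastCases with
          | last => exact absurd hb (lt_irrefl _)
          | cast b =>
            rw [hφ1] at h5
            exact ⟨b, h5⟩
      | cast c =>
        rw [hφ1]
        have hw : F.IsWord X K c y := by
          obtain ⟨l, hl, hy2, h3⟩ := hy
          refine ⟨l, hl, hy2, ?_⟩
          intro a ha
          rcases h3 a ha with h4 | h4 | ⟨b, hb, h4⟩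
          · exact Or.inl h4
          · exact Or.inr (Or.inl h4)
          · right; right
            have h5 : Mem a (φ b) := h4
            induction b using Fin.lastCases with
            | last => exact absurd hb (not_lt.2 (Fin.le_last _))
            | cast b =>
              rw [hφ1] at h5
              exact ⟨b, Fin.castSucc_lt_castSucc_iff.1 hb, h5⟩
        exact ⟨hF.avgl c y hw, hF.avgr c y hw⟩
    · intro c y
      induction c using Fin.lastCases with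
      | last =>
        rw [hφ2]
        exact hg2 y
      | cast c =>
        rw [hφ1]
        exact ⟨hF.coefl c y, hF.coefr c y⟩


open H759R2.Kad.A13 in
theorem proveA_rand (h1 : KA_fam.{u}) (h2 : K_adj.{u}) (h3 : K_gram.{u}) : KA_rand.{u} := by
  intro B _ _ _ τ hτ hD hO n Q R _ hQR x hx δ hδ ε hε
  set X : Set B := Set.range (fun p : Fin n × Fin n => x p.1 p.2) with hX
  have hXf : X.Finite := Set.finite_range _
  set N : ℝ := 2 * Q * (n : ℝ) ^ (2 * Q + 4) + 1 with hN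
  have hN0 : 0 < N := by positivity
  obtain ⟨F, hF⟩ := h1 B τ hτ hD hO n X hXf (4 * Q + 2) (ε / N) (by positivity)
  have hF' := h2 B τ n F X (4 * Q + 2) (ε / N) hF
  refine ⟨F.Idx, inferInstance, inferInstance, F.val, fun k hk => ?_⟩
  have herr : 2 * (k : ℝ) * (n : ℝ) ^ (2 * k + 4) * (ε / N) ≤ ε := by
    have h4 : 2 * (k : ℝ) * (n : ℝ) ^ (2 * k + 4) ≤ N := by
      have h5 : (n : ℝ) ^ (2 * k + 4) ≤ (n : ℝ) ^ (2 * Q + 4) := by
        rcases Nat.eq_zero_or_pos n with h0 | h0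
        · subst h0
          simp
        · exact pow_le_pow_right₀ (by exact_mod_cast h0) (by omega)
      have h6 : (k : ℝ) ≤ Q := by exact_mod_cast hk.le
      calc 2 * (k : ℝ) * (n : ℝ) ^ (2 * k + 4) ≤ 2 * Q * (n : ℝ) ^ (2 * Q + 4) := by gcongr
        _ ≤ N := by rw [hN]; linarith
    calc _ ≤ N * (ε / N) := mul_le_mul_of_nonneg_right h4 (by positivity)
      _ = ε := by field_simp
  have hκ : ∀ _ : Fin n, ((k : ℝ) + 1) ^ 2 * δ ≤ (Q : ℝ) ^ 2 * δ := by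
    intro j
    have h0 : 0 ≤ δ := by
      refine le_trans ?_ (hδ j j)
      have := hτ.pos (x j j)
      exact (Complex.le_def.1 this).1
    have h6 : (k : ℝ) + 1 ≤ Q := by exact_mod_cast hk
    gcongr
  refine ⟨?_, ?_⟩
  · have h4 := h3 B τ hτ n F X x (4 * Q + 2) (ε / N) δ (by positivity) hF
      (fun i j => Or.inl ⟨(i, j), rfl⟩) hx hδ k R (by omega) (by omega)
    exact A13.gram_mono h4 herr hκ
  · have h4 := h3 B τ hτ n F.adj X (star x) (4 * Q + 2) (ε / N) δ (by positivity) hF'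
      (fun i j => Or.inr ⟨(j, i), by simp [CStarMatrix.star_apply]⟩) (Unitary.star_mem hx)
      (fun i j => by
        refine le_trans (le_of_eq ?_) (hδ j i)
        unfold pmat
        rw [CStarMatrix.star_apply, star_star, hτ.comm]) k R (by omega) (by omega)
    exact A13.gram_mono h4 herr hκ


open H759R2.Kad.A23 in
open Rec2 in
theorem unit_keyA (h1 : KA_rand.{u}) (h2 : K_embed.{u, v}) (h3 : T2_det.{u, v})
    (h4 : St_phtr.{u}) (h5 : K_orbit.{u, v}) (h6 : K_crude.{u, v})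
    (B : Type u) [CStarAlgebra B] [PartialOrder B] [StarOrderedRing B]
    (K : Type v) [NormedAddCommGroup K] [InnerProductSpace ℂ K] [CompleteSpace K]
    (w : B →ₗ[ℂ] (K →L[ℂ] K)) (τ : B →ₗ[ℂ] ℂ) (hw : IsHom w) (hτ : IsTracialState τ)
    (hdix : HasDixmier τ) (horth : HasOrthA τ) (γ : ℝ) (hγ : 1 ≤ γ) (hwb : ∀ b, ‖w b‖ ≤ γ * ‖b‖)
    (L m : ℕ) (hm : 0 < m) (hL : 25920 * m ^ 11 ≤ L) (hl : LvlBd w L γ)
    (hW : IsHom (amp w (Fin (m * L))))
    (x : CStarMatrix (Fin (m * L)) (Fin (m * L)) B)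
    (hx : x ∈ unitary (CStarMatrix (Fin (m * L)) (Fin (m * L)) B))
    (hp : ∀ i j, pmat τ x i j ≤ 1 / (12 * m ^ 4)) (ζ : HH (Fin (m * L)) K) :
    ‖amp w (Fin (m * L)) x ζ‖ ^ 2 ≤ 11528 * γ ^ 14 * ‖ζ‖ ^ 2 := by
  have hγ0 : 0 ≤ γ := by linarith
  have hmr : (0 : ℝ) < m := by exact_mod_cast hm
  have hmp : 0 < m ^ 11 := by positivity
  have hL0 : 0 < L := by omega
  have hLr : (0 : ℝ) < L := by exact_mod_cast hL0
  have hmL : m ≤ L := by
    have : m ≤ m ^ 11 := Nat.le_self_pow (by norm_num) m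
    omega
  have hL8 : 8 * (m : ℝ) ^ 6 ≤ L := by
    have e1 : m ^ 6 ≤ m ^ 11 := Nat.pow_le_pow_right hm (by norm_num)
    have e2 : 8 * m ^ 6 ≤ L := by omega
    exact_mod_cast e2
  haveI : NeZero (2 * m + 2) := ⟨by omega⟩
  obtain ⟨n, hn⟩ : ∃ n : ℕ, n = m * L := ⟨_, rfl⟩
  have hnr : (n : ℝ) = m * L := by rw [hn]; push_cast; ring
  have hn0 : (0 : ℝ) < n := by rw [hnr]; positivity
  obtain ⟨Ω, iΩ, iN, G, hG⟩ := h1 B τ hτ hdix horth (m * L) m (2 * m + 2) (by omega) x hx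
    (1 / (12 * m ^ 4)) hp (1 / (12 * m ^ 2 * ((m * L : ℕ) : ℝ) ^ m))
    (by
      have : (0 : ℝ) < ((m * L : ℕ) : ℝ) := by
        rw [← hn]; exact hn0
      positivity)
  have hκ : (m : ℝ) ^ 2 * (1 / (12 * m ^ 4)) = 1 / (12 * m ^ 2) := by
    field_simp
  rw [hκ] at hG
  obtain ⟨ho1, ho2⟩ := h5 B K w τ hw hτ hdix γ hγ hwb L m hm hmL hl (2 * m + 2) (by omega) Ω G x
    hx hG
  have hcr := h6 B K w L m γ hγ0 hl
  subst hn
  -- notation
  set W := amp w (Fin (m * L)) with hWdef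
  set θ : HH (Fin (m * L)) K := W x ζ with hθ
  let I := Ω × (Fin (m * L) → ZMod (2 * m + 2))
  let U : I → CStarMatrix (Fin (m * L)) (Fin (m * L)) B := fun p => x * gm (G p.1) * ph B p.2
  set N : ℝ := (Fintype.card I : ℝ) with hN
  have hNe : N = (Fintype.card Ω * Fintype.card (Fin (m * L) → ZMod (2 * m + 2)) : ℝ) := by
    rw [hN, Fintype.card_prod]
    push_cast
    rfl
  have hN0 : 0 < N := by
    rw [hN]
    exact_mod_cast Fintype.card_pos
  have hU : ∀ p : I, U p ∈ unitary (CStarMatrix (Fin (m * L)) (Fin (m * L)) B) :=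
    fun p => mul_mem (mul_mem hx (A23.gm_unitary _)) (ph_unitary B p.2)
  obtain ⟨Phi, hPhi⟩ : ∃ Phi : I → ℝ, Phi = fun p => ∑ k ∈ range m, ‖W (U p ^ k) θ‖ ^ 2 :=
    ⟨_, rfl⟩
  obtain ⟨Psi, hPsi⟩ : ∃ Psi : I → ℝ, Psi = fun p =>
    (1 / (m : ℝ)) * ∑ q ∈ range m, ‖W (star (U p) ^ (q + 1)) θ‖ ^ 2 := ⟨_, rfl⟩
  obtain ⟨Y, hY⟩ : ∃ Y : I → ℝ, Y = fun p =>
    ∑ k ∈ range (2 * m), ‖tr τ (Fin (m * L)) (U p ^ (k + 1))‖ := ⟨_, rfl⟩
  have hY0 : ∀ p, 0 ≤ Y p := fun p => by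
    rw [hY]
    exact sum_nonneg fun k _ => norm_nonneg _
  have hPsi0 : ∀ p, 0 ≤ Psi p := fun p => by
    rw [hPsi]
    exact mul_nonneg (by positivity) (sum_nonneg fun k _ => by positivity)
  have ht1 : (tr τ (Fin (m * L)) (1 : CStarMatrix (Fin (m * L)) (Fin (m * L)) B)).re =
      ((m * L : ℕ) : ℝ) := by
    rw [tr_one hτ, Fintype.card_fin]
    exact Complex.natCast_re _
  -- deterministic inequality
  have hdet : ∀ p, m * Phi p ≤ (4 * m ^ 2 * (18 * γ ^ 6) + 18 * γ ^ 6 / L *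
      (2 * m * ((m * L : ℕ) : ℝ) + 4 * m * Y p)) * Psi p := by
    intro p
    have h8 := h3 (CStarMatrix (Fin (m * L)) (Fin (m * L)) B) (HH (Fin (m * L)) K) W hW
      (tr τ (Fin (m * L))) (tr_star hτ) (by rw [ht1]; exact hn0.le)
      (18 * γ ^ 6) (18 * γ ^ 6 / L) (by positivity) (by positivity)
      (fun X ξ => by
        refine (h2 B K w τ hw hτ hdix γ hγ0 hwb (m * L) L m hL0 hm le_rfl γ
          hγ0 hl X ξ).trans_eq ?_
        ring) (U p) (hU p) θ m hm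
    rw [ht1] at h8
    rw [hPhi, hPsi, hY]
    exact h8
  have hgood : ∀ p, Y p ≤ ((m * L : ℕ) : ℝ) → m * Phi p ≤ (180 * m ^ 2 * γ ^ 6) * Psi p := by
    intro p hp'
    refine (hdet p).trans (mul_le_mul_of_nonneg_right ?_ (hPsi0 p))
    have h8 : 18 * γ ^ 6 / L * (2 * m * ((m * L : ℕ) : ℝ) + 4 * m * Y p) ≤
        18 * γ ^ 6 / L * (2 * m * ((m * L : ℕ) : ℝ) + 4 * m * ((m * L : ℕ) : ℝ)) := by
      gcongr
    have h9 : 18 * γ ^ 6 / L * (2 * m * ((m * L : ℕ) : ℝ) + 4 * m * ((m * L : ℕ) : ℝ)) =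
        108 * γ ^ 6 * m ^ 2 := by
      rw [hnr]
      field_simp
      ring
    calc 4 * m ^ 2 * (18 * γ ^ 6) + 18 * γ ^ 6 / L *
          (2 * m * ((m * L : ℕ) : ℝ) + 4 * m * Y p)
        ≤ 4 * m ^ 2 * (18 * γ ^ 6) + 108 * γ ^ 6 * m ^ 2 := by
          rw [h9] at h8
          exact add_le_add le_rfl h8
      _ = 180 * m ^ 2 * γ ^ 6 := by ring
  have hbad : ∀ p, m * Phi p ≤ m ^ 4 * γ ^ 2 * ‖ζ‖ ^ 2 := by
    intro p
    have h8 : ∀ k ∈ range m, ‖W (U p ^ k) θ‖ ^ 2 ≤ (m * γ) ^ 2 * ‖ζ‖ ^ 2 := by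
      intro k _
      have h9 : W (U p ^ k) θ = W (U p ^ k * x) ζ := by
        rw [hW.mul]
        rfl
      have h10 : U p ^ k * x ∈ unitary (CStarMatrix (Fin (m * L)) (Fin (m * L)) B) :=
        mul_mem (pow_mem (hU p) k) hx
      have h11 : ‖W (U p ^ k * x) ζ‖ ≤ m * γ * ‖ζ‖ := by
        refine (ContinuousLinearMap.le_opNorm _ _).trans ?_
        refine mul_le_mul_of_nonneg_right ?_ (norm_nonneg _)
        refine (hcr _).trans ?_
        calc m * γ * ‖U p ^ k * x‖ ≤ m * γ * 1 :=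
              mul_le_mul_of_nonneg_left (norm_unitary_le h10) (by positivity)
          _ = m * γ := mul_one _
      rw [h9]
      calc ‖W (U p ^ k * x) ζ‖ ^ 2 ≤ (m * γ * ‖ζ‖) ^ 2 :=
            pow_le_pow_left₀ (norm_nonneg _) h11 2
        _ = (m * γ) ^ 2 * ‖ζ‖ ^ 2 := by ring
    have h12 : Phi p ≤ m * ((m * γ) ^ 2 * ‖ζ‖ ^ 2) := by
      calc Phi p = ∑ k ∈ range m, ‖W (U p ^ k) θ‖ ^ 2 := by rw [hPhi]
        _ ≤ ∑ _k ∈ range m, (m * γ) ^ 2 * ‖ζ‖ ^ 2 := sum_le_sum h8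
        _ = m * ((m * γ) ^ 2 * ‖ζ‖ ^ 2) := by
          rw [sum_const, card_range, nsmul_eq_mul]
    calc m * Phi p ≤ m * (m * ((m * γ) ^ 2 * ‖ζ‖ ^ 2)) :=
          mul_le_mul_of_nonneg_left h12 hmr.le
      _ = m ^ 4 * γ ^ 2 * ‖ζ‖ ^ 2 := by ring
  -- traces
  have htr : ∀ k ∈ range (2 * m), ∀ s : Ω, ∑ ω : Fin (m * L) → ZMod (2 * m + 2),
      ‖tr τ (Fin (m * L)) (U (s, ω) ^ (k + 1))‖ ≤
        (Fintype.card (Fin (m * L) → ZMod (2 * m + 2)) : ℝ) *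
          (((m * L : ℕ) : ℝ) / (2 * m ^ 3)) := by
    intro k hk s
    rw [Finset.mem_range] at hk
    set G' : ℝ := (Fintype.card (Fin (m * L) → ZMod (2 * m + 2)) : ℝ) with hG'
    have hG0 : 0 < G' := by
      rw [hG']
      exact_mod_cast Fintype.card_pos
    have h8 : ∑ ω : Fin (m * L) → ZMod (2 * m + 2),
        ‖tr τ (Fin (m * L)) (U (s, ω) ^ (k + 1))‖ ^ 2 ≤ G' * ((k + 1) * ((m * L : ℕ) : ℝ)) := by
      have := h4 (Fin (m * L)) (2 * m + 2) B τ hτ (x * gm (G s))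
        (mul_mem hx (A23.gm_unitary _)) k (by omega)
      rw [Fintype.card_fin] at this
      exact this
    have h9 : (∑ ω : Fin (m * L) → ZMod (2 * m + 2),
        ‖tr τ (Fin (m * L)) (U (s, ω) ^ (k + 1))‖) ^ 2 ≤
        G' * ∑ ω : Fin (m * L) → ZMod (2 * m + 2),
        ‖tr τ (Fin (m * L)) (U (s, ω) ^ (k + 1))‖ ^ 2 := by
      have := sq_sum_le_card_mul_sum_sq
        (s := (Finset.univ : Finset (Fin (m * L) → ZMod (2 * m + 2))))
        (f := fun ω => ‖tr τ (Fin (m * L)) (U (s, ω) ^ (k + 1))‖)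
      rw [Finset.card_univ] at this
      exact this
    have h10 : (0 : ℝ) ≤ ∑ ω : Fin (m * L) → ZMod (2 * m + 2),
        ‖tr τ (Fin (m * L)) (U (s, ω) ^ (k + 1))‖ := Finset.sum_nonneg fun ω _ => norm_nonneg _
    have hk' : ((k : ℝ) + 1) ≤ 2 * m := by exact_mod_cast hk
    rw [← pow_le_pow_iff_left₀ h10 (by positivity) two_ne_zero]
    refine h9.trans ((mul_le_mul_of_nonneg_left h8 hG0.le).trans ?_)
    have h11 : ((k : ℝ) + 1) * ((m * L : ℕ) : ℝ) ≤ 2 * m * ((m * L : ℕ) : ℝ) :=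
      mul_le_mul_of_nonneg_right hk' hn0.le
    have h12 : 2 * (m : ℝ) * ((m * L : ℕ) : ℝ) ≤ (((m * L : ℕ) : ℝ) / (2 * m ^ 3)) ^ 2 := by
      rw [div_pow, le_div_iff₀ (by positivity)]
      have h13 : 2 * (m : ℝ) * ((m * L : ℕ) : ℝ) * (2 * m ^ 3) ^ 2 =
          (m * (8 * m ^ 6)) * ((m * L : ℕ) : ℝ) := by ring
      have h14 : (m : ℝ) * (8 * m ^ 6) ≤ ((m * L : ℕ) : ℝ) := by
        rw [hnr]
        exact mul_le_mul_of_nonneg_left hL8 hmr.le
      rw [h13, sq]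
      exact mul_le_mul_of_nonneg_right h14 hn0.le
    calc G' * (G' * ((k + 1) * ((m * L : ℕ) : ℝ)))
        ≤ G' * (G' * (((m * L : ℕ) : ℝ) / (2 * m ^ 3)) ^ 2) := by
          have := h11.trans h12
          gcongr
      _ = (G' * (((m * L : ℕ) : ℝ) / (2 * m ^ 3))) ^ 2 := by ring
  have hsumY : ∑ p, Y p ≤ N * (((m * L : ℕ) : ℝ) / m ^ 2) := by
    have e1 : ∑ p, Y p = ∑ k ∈ range (2 * m), ∑ s : Ω, ∑ ω : Fin (m * L) → ZMod (2 * m + 2),
        ‖tr τ (Fin (m * L)) (U (s, ω) ^ (k + 1))‖ := by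
      rw [hY, sum_comm]
      refine sum_congr rfl fun k _ => ?_
      rw [Fintype.sum_prod_type]
    rw [e1]
    have e2 : ∀ k ∈ range (2 * m), ∑ s : Ω, ∑ ω : Fin (m * L) → ZMod (2 * m + 2),
        ‖tr τ (Fin (m * L)) (U (s, ω) ^ (k + 1))‖ ≤ N * (((m * L : ℕ) : ℝ) / (2 * m ^ 3)) := by
      intro k hk
      refine (sum_le_sum fun s _ => htr k hk s).trans_eq ?_
      rw [sum_const, card_univ, nsmul_eq_mul, hNe]
      ring
    refine (sum_le_sum e2).trans_eq ?_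
    rw [Finset.sum_const, Finset.card_range, nsmul_eq_mul]
    push_cast
    field_simp
  -- orbits
  have hlow : m * (N * ‖θ‖ ^ 2) ≤ 8 * γ ^ 4 * ∑ p, Phi p := by
    have e1 : ∑ p, Phi p = ∑ k ∈ range m, ∑ s : Ω, ∑ ω : Fin (m * L) → ZMod (2 * m + 2),
        ‖W ((x * gm (G s) * ph B ω) ^ k) θ‖ ^ 2 := by
      rw [hPhi, sum_comm]
      refine sum_congr rfl fun k _ => ?_
      rw [Fintype.sum_prod_type]
    rw [e1, mul_sum]
    have h8 : ∑ _k ∈ range m, (N * ‖θ‖ ^ 2) ≤ ∑ k ∈ range m,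
        8 * γ ^ 4 * ∑ s : Ω, ∑ ω : Fin (m * L) → ZMod (2 * m + 2),
          ‖W ((x * gm (G s) * ph B ω) ^ k) θ‖ ^ 2 := by
      refine sum_le_sum fun k hk => ?_
      rw [hNe]
      exact ho1 θ k (mem_range.1 hk)
    rw [sum_const, card_range, nsmul_eq_mul] at h8
    exact h8
  have hup : ∑ p, Psi p ≤ N * (8 * γ ^ 4 * ‖ζ‖ ^ 2) := by
    have h8 : ∑ p, Psi p = (1 / (m : ℝ)) * ∑ q ∈ range m,
        ∑ s : Ω, ∑ ω : Fin (m * L) → ZMod (2 * m + 2),
          ‖W (star (x * gm (G s) * ph B ω) ^ (q + 1)) θ‖ ^ 2 := by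
      rw [hPsi]
      rw [← mul_sum, sum_comm]
      congr 1
      refine sum_congr rfl fun k _ => ?_
      rw [Fintype.sum_prod_type]
    have h9 : ∑ q ∈ range m, ∑ s : Ω, ∑ ω : Fin (m * L) → ZMod (2 * m + 2),
          ‖W (star (x * gm (G s) * ph B ω) ^ (q + 1)) θ‖ ^ 2 ≤
        ∑ _q ∈ range m, N * (8 * γ ^ 4 * ‖ζ‖ ^ 2) := by
      refine sum_le_sum fun q hq => ?_
      rw [hNe]
      exact ho2 ζ q (mem_range.1 hq)
    rw [sum_const, card_range, nsmul_eq_mul] at h9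
    rw [h8]
    calc (1 / (m : ℝ)) * ∑ q ∈ range m, ∑ s : Ω, ∑ ω : Fin (m * L) → ZMod (2 * m + 2),
          ‖W (star (x * gm (G s) * ph B ω) ^ (q + 1)) θ‖ ^ 2
        ≤ (1 / (m : ℝ)) * (m * (N * (8 * γ ^ 4 * ‖ζ‖ ^ 2))) :=
          mul_le_mul_of_nonneg_left h9 (by positivity)
      _ = N * (8 * γ ^ 4 * ‖ζ‖ ^ 2) := by field_simp
  have hcomb := A23.combine Phi Psi Y m ((m * L : ℕ) : ℝ) (m ^ 4 * γ ^ 2 * ‖ζ‖ ^ 2)
    (180 * m ^ 2 * γ ^ 6) (((m * L : ℕ) : ℝ) / m ^ 2) hn0 (by positivity) (by positivity)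
    hY0 hPsi0 hgood hbad hsumY
  have hE : m ^ 4 * γ ^ 2 * ‖ζ‖ ^ 2 / ((m * L : ℕ) : ℝ) * (((m * L : ℕ) : ℝ) / m ^ 2) =
      m ^ 2 * γ ^ 2 * ‖ζ‖ ^ 2 := by
    field_simp
  rw [hE, ← hN] at hcomb
  have hfin : (N * m ^ 2) * ‖θ‖ ^ 2 ≤ (N * m ^ 2) * ((11520 * γ ^ 14 + 8 * γ ^ 6) * ‖ζ‖ ^ 2) := by
    have e1 : (m : ℝ) * (m * (N * ‖θ‖ ^ 2)) ≤ m * (8 * γ ^ 4 * ∑ p, Phi p) :=
      mul_le_mul_of_nonneg_left hlow hmr.le
    have e2 : (180 * (m : ℝ) ^ 2 * γ ^ 6) * ∑ p, Psi p ≤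
        (180 * (m : ℝ) ^ 2 * γ ^ 6) * (N * (8 * γ ^ 4 * ‖ζ‖ ^ 2)) :=
      mul_le_mul_of_nonneg_left hup (by positivity)
    have e3 : 8 * γ ^ 4 * (m * ∑ p, Phi p) ≤
        8 * γ ^ 4 * ((180 * (m : ℝ) ^ 2 * γ ^ 6) * (N * (8 * γ ^ 4 * ‖ζ‖ ^ 2)) +
          N * (m ^ 2 * γ ^ 2 * ‖ζ‖ ^ 2)) :=
      mul_le_mul_of_nonneg_left (hcomb.trans (add_le_add e2 le_rfl)) (by positivity)
    calc (N * m ^ 2) * ‖θ‖ ^ 2 = (m : ℝ) * (m * (N * ‖θ‖ ^ 2)) := by ring
      _ ≤ m * (8 * γ ^ 4 * ∑ p, Phi p) := e1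
      _ = 8 * γ ^ 4 * (m * ∑ p, Phi p) := by ring
      _ ≤ _ := e3
      _ = _ := by ring
  have hfin2 := le_of_mul_le_mul_left hfin (by positivity)
  refine hfin2.trans (mul_le_mul_of_nonneg_right ?_ (by positivity))
  have : γ ^ 6 ≤ γ ^ 14 := pow_le_pow_right₀ hγ (by norm_num)
  linarith

theorem proveA_unit (h1 : KA_rand.{u}) (h2 : K_embed.{u, v}) (h3 : T2_det.{u, v})
    (h4 : St_phtr.{u}) (h5 : K_orbit.{u, v}) (h6 : K_crude.{u, v}) (h7 : T2_dix.{u, v}) :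
    KA_unit.{u, v} := by
  intro B _ _ _ K _ _ _ w τ hw hτ hdix horth γ hγ hwb L m hm hL hl x hx hp
  have hmp : 0 < m ^ 11 := by positivity
  have hL0 : 0 < L := by omega
  haveI : Nonempty (Fin (m * L)) := ⟨⟨0, Nat.mul_pos hm hL0⟩⟩
  obtain ⟨hW, -, -⟩ := h7 B K w τ hw hτ hdix γ (by linarith) hwb (Fin (m * L))
  apply ContinuousLinearMap.opNorm_le_bound _ (by positivity)
  intro ζ
  have h8 := unit_keyA h1 h2 h3 h4 h5 h6 B K w τ hw hτ hdix horth γ hγ hwb L m hm hL hl hW x hx hp ζ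
  have h9 : ‖amp w (Fin (m * L)) x ζ‖ ^ 2 ≤ (108 * γ ^ 7 * ‖ζ‖) ^ 2 := by
    refine h8.trans ?_
    have : (108 * γ ^ 7 * ‖ζ‖) ^ 2 = 11664 * γ ^ 14 * ‖ζ‖ ^ 2 := by ring
    rw [this]
    have h10 : 0 ≤ γ ^ 14 * ‖ζ‖ ^ 2 := by positivity
    nlinarith
  exact (abs_le_of_sq_le_sq' h9 (by positivity)).2


open H294R2.Kad2 H759R2.Kad.A24 in
theorem proveA_main (h1 : KA_unit.{u, v}) (h2 : K_flat.{u}) : KA_main.{u, v} := by
  intro B _ _ _ K _ _ _ w τ hw hτ hD hO γ hγ hwγ L m hm hL hLvl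
  have hγ0 : (0 : ℝ) ≤ γ := zero_le_one.trans hγ
  have hLpos : 0 < L := lt_of_lt_of_le (by positivity) hL
  have hn : 0 < m * L := Nat.mul_pos hm hLpos
  have hC : (0 : ℝ) ≤ 108 * γ ^ 7 := by positivity
  have key : ∀ x ∈ unitary (CStarMatrix (Fin (m * L)) (Fin (m * L)) B),
      ‖amp w (Fin (m * L)) x‖ ≤ 108 * γ ^ 7 := by
    intro x hx
    obtain ⟨t, ht, hflat⟩ := h2 B τ hτ (m * L) hn x hx
    have hT : tens t (1 : B) ∈ unitary (CStarMatrix (Fin (m * L)) (Fin (m * L)) B) :=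
      Block.tens_unitary ht (one_mem _)
    have hy : x * tens t (1 : B) ∈ unitary (CStarMatrix (Fin (m * L)) (Fin (m * L)) B) :=
      mul_mem hx hT
    have hy1 := h1 B K w τ hw hτ hD hO γ hγ hwγ L m hm hL hLvl (x * tens t (1 : B)) hy
      (fun i j => A24.flat_num hm hL (hflat i j))
    have e1 : x = (x * tens t (1 : B)) * tens (star t) (1 : B) := by
      have e2 : star (tens t (1 : B)) = tens (star t) (1 : B) := by
        rw [star_tens, star_one]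
      rw [← e2, mul_assoc, hT.2, mul_one]
    have e3 : amp w (Fin (m * L)) x =
        amp w (Fin (m * L)) (x * tens t (1 : B)) * amp w (Fin (m * L)) (tens (star t) (1 : B)) := by
      rw [← (amp_isHom hw).mul, ← e1]
    have e4 : ‖amp w (Fin (m * L)) (tens (star t) (1 : B))‖ ≤ 1 :=
      A24.norm_amp_tens_one hw.one (Unitary.star_mem ht)
    calc ‖amp w (Fin (m * L)) x‖ = ‖amp w (Fin (m * L)) (x * tens t (1 : B)) *
          amp w (Fin (m * L)) (tens (star t) (1 : B))‖ := by rw [← e3]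
      _ ≤ ‖amp w (Fin (m * L)) (x * tens t (1 : B))‖ *
          ‖amp w (Fin (m * L)) (tens (star t) (1 : B))‖ := norm_mul_le _ _
      _ ≤ 108 * γ ^ 7 * 1 := mul_le_mul hy1 e4 (norm_nonneg _) hC
      _ = 108 * γ ^ 7 := mul_one _
  intro X
  obtain ⟨u, c, hX, hc⟩ := CStarAlgebra.exists_sum_four_unitary X
  calc ‖amp w (Fin (m * L)) X‖ = ‖∑ i, c i • amp w (Fin (m * L))
        (u i : CStarMatrix (Fin (m * L)) (Fin (m * L)) B)‖ := by
        conv_lhs => rw [hX]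
        rw [map_sum]
        simp_rw [map_smul]
    _ ≤ ∑ i, ‖c i • amp w (Fin (m * L))
        (u i : CStarMatrix (Fin (m * L)) (Fin (m * L)) B)‖ := norm_sum_le _ _
    _ ≤ ∑ i : Fin 4, ‖X‖ / 2 * (108 * γ ^ 7) := by
        refine Finset.sum_le_sum fun i _ => ?_
        rw [norm_smul]
        exact mul_le_mul (hc i) (key _ (u i).2) (norm_nonneg _) (by positivity)
    _ = 216 * γ ^ 7 * ‖X‖ := by
        simp
        ring


open A30 in
theorem proveA_final (h1 : KA_main.{u, v}) (h2 : K_sim.{u, v}) (h3 : K_units.{u, v}) (h4 : K_nest.{u, v})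
    (h5 : K_transport.{u, v}) : KA_final.{u, v} := by
  intro B _ _ _ τ hτ hdix horth H _ _ _ L m hm hL u hu c hc hbd
  have hc0 : 0 ≤ c := zero_le_one.trans hc
  have hLpos : 0 < L := by
    have : 0 < 25920 * m ^ 11 := by positivity
    omega
  obtain ⟨S, S', hSS', hS'S, hS, hS', hstar⟩ := h2 B H L u hu c hc0 hbd
  let u' : CStarMatrix (Fin L) (Fin L) B →ₗ[ℂ] (H →L[ℂ] H) :=
    { toFun := fun X => S * u X * S'
      map_add' := fun X Y => by rw [map_add, mul_add, add_mul]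
      map_smul' := fun r X => by
        rw [map_smul, mul_smul_comm, smul_mul_assoc, RingHom.id_apply] }
  have hu' : IsHom u' := by
    refine ⟨fun X Y => ?_, ?_⟩
    · show S * u (X * Y) * S' = (S * u X * S') * (S * u Y * S')
      rw [hu.mul]
      calc S * (u X * u Y) * S' = S * u X * 1 * u Y * S' := by
            simp only [mul_assoc, one_mul]
        _ = S * u X * (S' * S) * u Y * S' := by rw [hS'S]
        _ = _ := by simp only [mul_assoc]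
    · show S * u 1 * S' = 1
      rw [hu.one, mul_one, hSS']
  have hbd' : ∀ X, ‖u' X‖ ≤ c ^ 3 * ‖X‖ := by
    intro X
    show ‖S * u X * S'‖ ≤ _
    calc ‖S * u X * S'‖ ≤ ‖S‖ * ‖u X‖ * ‖S'‖ := by
          refine (norm_mul_le _ _).trans ?_
          exact mul_le_mul_of_nonneg_right (norm_mul_le _ _) (norm_nonneg _)
      _ ≤ c * (c * ‖X‖) * c := by
          have := hbd X
          gcongr
      _ = c ^ 3 * ‖X‖ := by ring
  obtain ⟨K, iK1, iK2, iK3, w, V, hw, hV⟩ := h3 B H L hLpos u' hu' hstar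
  have hlvl : LvlBd w L (c ^ 3) := by
    intro Y
    refine ContinuousLinearMap.opNorm_le_bound _ (by positivity) fun ξ => ?_
    have e1 : ‖amp w (Fin L) Y ξ‖ = ‖u' Y (V ξ)‖ := by
      rw [hV, LinearIsometryEquiv.norm_map]
    rw [e1]
    calc ‖u' Y (V ξ)‖ ≤ ‖u' Y‖ * ‖V ξ‖ := ContinuousLinearMap.le_opNorm _ _
      _ ≤ c ^ 3 * ‖Y‖ * ‖ξ‖ := by
        rw [LinearIsometryEquiv.norm_map]
        exact mul_le_mul_of_nonneg_right (hbd' Y) (norm_nonneg _)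
  have hwb : ∀ b, ‖w b‖ ≤ c ^ 3 * ‖b‖ := by
    intro b
    refine ContinuousLinearMap.opNorm_le_bound _ (by positivity) fun ξ => ?_
    let i0 : Fin L := ⟨0, hLpos⟩
    have e1 : w b ξ = amp w (Fin L) (cornerHom i0 b) (inj i0 ξ) i0 := by
      rw [amp_apply, Finset.sum_eq_single i0]
      · rw [cornerHom_apply, inj_apply]
        simp
      · intro j _ hj
        rw [inj_apply, if_neg hj, map_zero]
      · simp
    calc ‖w b ξ‖ = ‖amp w (Fin L) (cornerHom i0 b) (inj i0 ξ) i0‖ := by rw [e1]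
      _ ≤ ‖amp w (Fin L) (cornerHom i0 b) (inj i0 ξ)‖ := PiLp.norm_apply_le _ _
      _ ≤ ‖amp w (Fin L) (cornerHom i0 b)‖ * ‖inj (H := K) i0 ξ‖ :=
          ContinuousLinearMap.le_opNorm _ _
      _ ≤ (c ^ 3 * ‖cornerHom i0 b‖) * ‖ξ‖ := by
          rw [norm_inj]
          exact mul_le_mul_of_nonneg_right (hlvl _) (norm_nonneg _)
      _ ≤ (c ^ 3 * ‖b‖) * ‖ξ‖ := by
          have : ‖cornerHom i0 b‖ ≤ ‖b‖ := NonUnitalStarAlgHom.norm_apply_le (cornerHom i0) b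
          gcongr
  have hmain := h1 B K w τ hw hτ hdix horth (c ^ 3) (one_le_pow₀ hc) hwb L m hm hL hlvl
  have hnest := h4 B K w L m (216 * (c ^ 3) ^ 7) (by positivity) hmain
  have htr := h5 (CStarMatrix (Fin L) (Fin L) B) H (HH (Fin L) K) u (amp w (Fin L)) V S S' c
    (216 * (c ^ 3) ^ 7) hc0 (by positivity) hS'S hS hS' (fun X ξ => hV X ξ) m hnest
  have e : c ^ 2 * (216 * (c ^ 3) ^ 7) = 216 * c ^ 23 := by ring
  rw [e] at htr
  exact htr


end H711R2.KG
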