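import Mathlib
import Pool.Agent.H711R2.KG.KAProps
import Pool.Agent.H804R2.Kad3.Fam1

/-!
One averaging family of unitaries, from nearly orthogonal unitaries.
-/

open scoped ComplexOrder InnerProductSpace ComplexConjugate
open Finset

noncomputable section

namespace H711R2.KG

open H759R2.Kad H759R2.Kad.F804

universe u v

variable {B : Type u} [CStarAlgebra B]

theorem coef_oneA [PartialOrder B] [StarOrderedRing B] {τ : B →ₗ[ℂ] ℂ} (hτ : IsTracialState τ)
    {K : ℕ} (hK : 0 < K) (h : Fin K → unitary B)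
    (ho : ∀ i j, i ≠ j → ‖τ (star (h i : B) * (h j : B))‖ ≤ 1 / K) (z : B) {ε : ℝ} (hε : 0 < ε)
    (hKε : 2 / ε ^ 2 ≤ K) :
    ‖fav (Fin K) (fun j => τ (z * star (h j : B)) • (h j : B))‖ ≤ ε * ‖z‖ := by
  classical
  have hK' : (0:ℝ) < K := by exact_mod_cast hK
  set c : Fin K → ℂ := fun j => τ (star (h j : B) * z) with hc
  set s : ℝ := ∑ j, ‖c j‖ with hs
  have hs0 : 0 ≤ s := Finset.sum_nonneg fun _ _ => norm_nonneg _
  obtain ⟨p, hp1, hp2⟩ : ∃ p : Fin K → ℂ, (∀ j, ‖p j‖ ≤ 1) ∧
      ∀ j, conj (p j) * c j = (‖c j‖ : ℂ) := by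
    refine ⟨fun j => c j / ‖c j‖, fun j => ?_, fun j => ?_⟩
    · rw [norm_div, Complex.norm_real, norm_norm]
      exact div_self_le_one _
    · simp only [map_div₀, Complex.conj_ofReal]
      rcases eq_or_ne (c j) 0 with h0 | h0
      · simp [h0]
      · have h1 : (‖c j‖ : ℂ) ≠ 0 := by
          rw [Ne, Complex.ofReal_eq_zero, norm_eq_zero]
          exact h0
        rw [div_mul_eq_mul_div, Complex.conj_mul', div_eq_iff h1]
        ring
  have hnn : ∀ i, τ (star (h i : B) * (h i : B)) = 1 := by
    intro i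
    rw [uu', hτ.one]
  have hcc : ∀ j, τ (star z * (h j : B)) = conj (c j) := by
    intro j
    rw [hc]
    simp only
    rw [← Rec2.tracial_star hτ, star_mul, star_star]
  set l : ℝ := s / (2 * K) with hl
  have hl0 : 0 ≤ l := by positivity
  have key : 0 ≤ l ^ 2 * (2 * K) - 2 * l * s + ‖z‖ ^ 2 := by
    set w : B := ∑ j, ((l : ℂ) * p j) • (h j : B) with hw
    have h0 := hτ.pos (w - z)
    have hsw : star w = ∑ j, (conj ((l : ℂ) * p j)) • star (h j : B) := by
      rw [hw, star_sum]
      exact Finset.sum_congr rfl fun j _ => star_smul _ _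
    have e1 : τ (star w * z) = ((l * s : ℝ) : ℂ) := by
      rw [hsw, Finset.sum_mul, map_sum]
      have : ∀ j, τ ((conj ((l : ℂ) * p j)) • star (h j : B) * z) = ((l * ‖c j‖ : ℝ) : ℂ) := by
        intro j
        rw [smul_mul_assoc, map_smul, smul_eq_mul, map_mul, Complex.conj_ofReal, mul_assoc]
        change (l : ℂ) * (conj (p j) * c j) = _
        rw [hp2]
        push_cast
        rfl
      rw [Finset.sum_congr rfl fun j _ => this j, hs, Finset.mul_sum]
      push_cast
      rfl
    have e2 : τ (star z * w) = ((l * s : ℝ) : ℂ) := by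
      have h1 : star z * w = star (star w * z) := by rw [star_mul, star_star]
      rw [h1, Rec2.tracial_star hτ, e1, Complex.conj_ofReal]
    have e3 : (τ (star w * w)).re ≤ l ^ 2 * (2 * K) := by
      have h1 : star w * w = ∑ i, ∑ j, (conj ((l : ℂ) * p i) * ((l : ℂ) * p j)) •
          (star (h i : B) * (h j : B)) := by
        rw [hsw, hw, Finset.sum_mul_sum]
        refine Finset.sum_congr rfl fun i _ => Finset.sum_congr rfl fun j _ => ?_
        rw [smul_mul_smul_comm]
      have h2 : ‖τ (star w * w)‖ ≤ ∑ i : Fin K, ∑ j : Fin K,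
          l ^ 2 * ((if i = j then 1 else 0) + 1 / K) := by
        rw [h1, map_sum]
        refine (norm_sum_le _ _).trans (Finset.sum_le_sum fun i _ => ?_)
        rw [map_sum]
        refine (norm_sum_le _ _).trans (Finset.sum_le_sum fun j _ => ?_)
        rw [map_smul, norm_smul, norm_mul, RCLike.norm_conj, norm_mul, norm_mul,
          Complex.norm_real, Real.norm_of_nonneg hl0]
        have h3 : ‖τ (star (h i : B) * (h j : B))‖ ≤ (if i = j then 1 else 0) + 1 / K := by
          by_cases hij : i = j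
          · subst hij
            rw [hnn, if_pos rfl, norm_one]
            have : (0:ℝ) ≤ 1 / K := by positivity
            linarith
          · rw [if_neg hij, zero_add]
            exact ho i j hij
        have h4 : l * ‖p i‖ * (l * ‖p j‖) ≤ l ^ 2 := by
          have a1 : ‖p i‖ * ‖p j‖ ≤ 1 := mul_le_one₀ (hp1 i) (norm_nonneg _) (hp1 j)
          calc l * ‖p i‖ * (l * ‖p j‖) = l ^ 2 * (‖p i‖ * ‖p j‖) := by ring
            _ ≤ l ^ 2 * 1 := by gcongr
            _ = l ^ 2 := by ring
        exact mul_le_mul h4 h3 (norm_nonneg _) (by positivity)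
      have h5 : ∑ i : Fin K, ∑ j : Fin K, l ^ 2 * ((if i = j then (1:ℝ) else 0) + 1 / K) =
          l ^ 2 * (2 * K) := by
        have h6 : ∀ i : Fin K, ∑ j : Fin K, l ^ 2 * ((if i = j then (1:ℝ) else 0) + 1 / K) =
            l ^ 2 * 2 := by
          intro i
          rw [← Finset.mul_sum, Finset.sum_add_distrib, Finset.sum_ite_eq, if_pos (Finset.mem_univ i),
            Finset.sum_const, Finset.card_univ, Fintype.card_fin, nsmul_eq_mul,
            mul_one_div_cancel hK'.ne']
          ring
        rw [Finset.sum_congr rfl fun i _ => h6 i, Finset.sum_const, Finset.card_univ,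
          Fintype.card_fin, nsmul_eq_mul]
        ring
      rw [h5] at h2
      exact (Complex.re_le_norm _).trans h2
    have e4 : (τ (star z * z)).re ≤ ‖z‖ ^ 2 := by
      have h3 := Col.state_bound τ hτ (star z * z) (star_mul_self_nonneg z)
      rw [CStarRing.norm_star_mul_self] at h3
      have h4 := Complex.re_le_norm (τ (star z * z))
      calc (τ (star z * z)).re ≤ ‖τ (star z * z)‖ := h4
        _ ≤ ‖z‖ * ‖z‖ := h3
        _ = _ := by ring
    have e5 : star (w - z) * (w - z) = star w * w - star w * z - star z * w + star z * z := by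
      rw [star_sub]
      noncomm_ring
    rw [e5, map_add, map_sub, map_sub, e1, e2, Complex.le_def] at h0
    have h1 := h0.1
    simp only [Complex.add_re, Complex.sub_re, Complex.ofReal_re, Complex.zero_re] at h1
    linarith
  have hs2 : s ^ 2 ≤ 2 * K * ‖z‖ ^ 2 := by
    have h1 : l ^ 2 * (2 * K) - 2 * l * s = - (s ^ 2 / (2 * K)) := by
      rw [hl]
      field_simp
      ring
    have h2 : s ^ 2 / (2 * K) ≤ ‖z‖ ^ 2 := by linarith
    rw [div_le_iff₀ (by positivity)] at h2
    linarith
  unfold fav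
  rw [norm_smul, norm_inv, Complex.norm_natCast, Fintype.card_fin, inv_mul_le_iff₀ hK']
  have h1 : ‖∑ j, τ (z * star (h j : B)) • (h j : B)‖ ≤ s := by
    refine (norm_sum_le _ _).trans (Finset.sum_le_sum fun j _ => ?_)
    rw [norm_smul, hτ.comm z]
    have : ‖(h j : B)‖ ≤ 1 := Col.norm_unitary_le (h j)
    calc ‖τ (star (h j : B) * z)‖ * ‖(h j : B)‖ ≤ ‖τ (star (h j : B) * z)‖ * 1 := by gcongr
      _ = _ := mul_one _
  refine h1.trans ?_
  have h3 : s ^ 2 ≤ (K * (ε * ‖z‖)) ^ 2 := by
    refine hs2.trans ?_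
    have h4 : 2 ≤ K * ε ^ 2 := by
      rw [div_le_iff₀ (by positivity)] at hKε
      exact hKε
    have h5 : 0 ≤ (K:ℝ) * ‖z‖ ^ 2 := by positivity
    nlinarith
  exact le_of_sq_le_sq h3 (by positivity)

theorem proveA_fam1 : KA_fam1.{u} := by
  intro B _ _ _ τ hτ hd ho Y hY ε hε
  classical
  obtain ⟨Ωb, i1, i2, b, hb⟩ := famA hτ hd ε hε Y hY
  obtain ⟨K, hK1, hK2⟩ : ∃ K : ℕ, 0 < K ∧ 2 / ε ^ 2 ≤ K := by
    obtain ⟨K, hK⟩ := exists_nat_ge (2 / ε ^ 2)
    refine ⟨K + 1, by omega, ?_⟩
    push_cast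
    linarith
  obtain ⟨h, hh⟩ := ho K (1 / K) (by positivity)
  haveI : Nonempty (Fin K) := ⟨⟨0, hK1⟩⟩
  -- the family
  let Ω : Type := Ωb × (Fin K × Ωb)
  let g : Ω → unitary B := fun p => star (b p.1) * (h p.2.1 * b p.2.2)
  have havr : ∀ y ∈ Y, ‖avr Ω g y - algebraMap ℂ B (τ y)‖ ≤ ε := by
    intro y hy
    have e : avr Ω g y = avr Ωb (fun s => star (b s)) (avr (Fin K) h (avr Ωb b y)) := by
      rw [← avr_prod (Fin K) Ωb h b y, ← avr_prod Ωb (Fin K × Ωb) (fun s => star (b s))
        (fun p => h p.1 * b p.2) y]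
    rw [e]
    exact (avr_contr _ _ _ _).trans ((avr_contr _ _ _ _).trans (hb y hy))
  have havl : ∀ y ∈ Y, ‖avl Ω g y - algebraMap ℂ B (τ y)‖ ≤ ε := by
    intro y hy
    have e : avl Ω g y = avr Ωb (fun s => star (b s)) (avr (Fin K) (fun j => star (h j))
        (avr Ωb b y)) := by
      rw [← avr_prod, ← avr_prod]
      unfold avl avr fav
      have hcard : Fintype.card (Ωb × (Fin K × Ωb)) = Fintype.card ((Ωb × Fin K) × Ωb) := by
        simp only [Fintype.card_prod]; ring
      rw [hcard]
      congr 1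
      refine Fintype.sum_equiv ⟨fun p => ((p.2.2, p.2.1), p.1), fun q => (q.2, (q.1.2, q.1.1)),
        fun p => rfl, fun q => rfl⟩ _ _ fun p => ?_
      obtain ⟨s, j, t⟩ := p
      simp only [g, Equiv.coe_fn_mk, Submonoid.coe_mul, Unitary.coe_star, star_mul, star_star]
    rw [e]
    exact (avr_contr _ _ _ _).trans ((avr_contr _ _ _ _).trans (hb y hy))
  have hcoef : ∀ y : B, ‖fav Ω (fun s => τ (y * star (g s : B)) • (g s : B))‖ ≤ ε * ‖y‖ := by
    intro y
    have e : fav Ω (fun s => τ (y * star (g s : B)) • (g s : B)) =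
        fav Ωb (fun s => fav Ωb (fun t => star (b s : B) *
          (fav (Fin K) (fun j => τ (((b s : B) * y * star (b t : B)) * star (h j : B)) •
            (h j : B))) * (b t : B))) := by
      rw [fav_prod]
      congr 1
      funext s
      rw [fav_prod']
      congr 1
      funext t
      unfold fav
      rw [mul_smul_comm, smul_mul_assoc, Finset.mul_sum, Finset.sum_mul]
      congr 1
      refine Finset.sum_congr rfl fun j _ => ?_
      simp only [g, Submonoid.coe_mul, Unitary.coe_star, star_mul, star_star]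
      rw [mul_smul_comm, smul_mul_assoc]
      congr 1
      · rw [← mul_assoc y, hτ.comm _ (b s : B)]
        congr 1
        noncomm_ring
      · noncomm_ring
    rw [e]
    refine norm_fav_le _ _ _ fun s => norm_fav_le _ _ _ fun t => ?_
    rw [CStarRing.norm_mul_coe_unitary, ← Unitary.coe_star, CStarRing.norm_coe_unitary_mul]
    refine (coef_oneA hτ hK1 h hh _ hε hK2).trans ?_
    rw [← Unitary.coe_star, CStarRing.norm_mul_coe_unitary, CStarRing.norm_coe_unitary_mul]
  have hcoef' : ∀ y : B, ‖fav Ω (fun s => τ (y * (g s : B)) • star (g s : B))‖ ≤ ε * ‖y‖ := by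
    intro y
    have h1 := hcoef (star y)
    rw [norm_star] at h1
    rw [← norm_star] at h1
    have e : star (fav Ω (fun s => τ (star y * star (g s : B)) • (g s : B))) =
        fav Ω (fun s => τ (y * (g s : B)) • star (g s : B)) := by
      unfold fav
      rw [star_smul, star_sum]
      congr 1
      · rw [star_inv₀]
        simp
      · refine Finset.sum_congr rfl fun s _ => ?_
        rw [star_smul]
        congr 1
        show conj (τ (star y * star (g s : B))) = _
        rw [← Rec2.tracial_star hτ, star_mul, star_star, star_star, hτ.comm]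
    rwa [e] at h1
  -- reindexing
  obtain ⟨k, hk⟩ : ∃ k, Fintype.card Ω = k + 1 := Nat.exists_eq_succ_of_ne_zero Fintype.card_ne_zero
  let e : Fin (k + 1) ≃ Ω := (Fintype.equivFinOfCardEq hk).symm
  have hre : ∀ f : Ω → B, ((k + 1 : ℂ))⁻¹ • ∑ s, f (e s) = fav Ω f := by
    intro f
    unfold fav
    rw [hk, Equiv.sum_comp e f]
    push_cast
    rfl
  refine ⟨k, fun s => g (e s), fun y hy => ⟨?_, ?_⟩, fun y => ⟨?_, ?_⟩⟩
  · rw [hre (fun s => star (g s : B) * y * (g s : B))]
    exact havl y hy
  · rw [hre (fun s => (g s : B) * y * star (g s : B))]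
    exact havr y hy
  · rw [hre (fun s => τ (y * star (g s : B)) • (g s : B))]
    exact hcoef y
  · rw [hre (fun s => τ (y * (g s : B)) • star (g s : B))]
    exact hcoef' y

end H711R2.KG
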