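import Mathlib
import Pool.Agent.H711R2.KG.Props
import Pool.Agent.H711R2.KG.KAProps
import Pool.Agent.H711R2.KG.K1a
import Pool.Agent.H711R2.KG.K1b
import Pool.Agent.H711R2.KG.P.A1
import Pool.Agent.H711R2.KG.P.A2
import Pool.Agent.H711R2.KG.P.A3
import Pool.Agent.H711R2.KG.P.A4
import Pool.Agent.H711R2.KG.P.A5
import Pool.Agent.H711R2.KG.P.B1
import Pool.Agent.H711R2.KG.P.B2
import Pool.Agent.H711R2.KG.P.B3
import Pool.Agent.H711R2.KG.P.B4
import Pool.Agent.H711R2.KG.P.B5
import Pool.Agent.H711R2.KG.P.B6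
import Pool.Agent.H711R2.KG.P.B7
import Pool.Agent.H711R2.KG.P.B8
import Pool.Agent.H711R2.KG.P.B9
import Pool.Agent.H711R2.KG.P.B10
import Pool.Agent.H711R2.KG.P.B11
import Pool.Agent.H711R2.KG.P.B12
import Pool.Agent.H711R2.KG.P.B13
import Pool.Agent.H711R2.KG.P.C1
import Pool.Agent.H711R2.KG.P.C2
import Pool.Agent.H711R2.KG.P.C3
import Pool.Agent.H711R2.KG.P.C4
import Pool.Agent.H711R2.KG.P.C5
import Pool.Agent.H711R2.KG.P.C6
import Pool.Agent.H711R2.KG.P.Q1
import Pool.Agent.H711R2.KG.P.Q2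
import Pool.Agent.H711R2.KG.P.V1
import Pool.Agent.H711R2.KG.P.V2
import Pool.Agent.H711R2.KG.P.V3
import Pool.Agent.H711R2.KG.P.V4
import Pool.Agent.H711R2.KG.P.V5
import Pool.Agent.H445R2.Kad4.Range
import Pool.Agent.H85R2.Kad4.Polar
import Pool.Agent.H849R2.Kad4.F4
import Pool.Agent.H759R2.Kad.Assemble3

/-!
Assembly: bounded homomorphisms of fibres of von Neumann algebras are completely bounded.
-/

open scoped ComplexOrder InnerProductSpace ComplexConjugate
open Finset

noncomputable section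

namespace H711R2.KG

open H759R2.Kad

universe u v

theorem lvl_mono {B : Type u} [CStarAlgebra B] [PartialOrder B] [StarOrderedRing B] {K : Type v}
    [NormedAddCommGroup K] [InnerProductSpace ℂ K] {w : B →ₗ[ℂ] (K →L[ℂ] K)} {L : ℕ} {γ γ' : ℝ}
    (h : LvlBd w L γ) (hγ : γ ≤ γ') : LvlBd w L γ' := fun Y =>
  (h Y).trans (mul_le_mul_of_nonneg_right hγ (norm_nonneg _))

theorem lvl_zero {B : Type u} [CStarAlgebra B] [PartialOrder B] [StarOrderedRing B] {K : Type v}
    [NormedAddCommGroup K] [InnerProductSpace ℂ K] (w : B →ₗ[ℂ] (K →L[ℂ] K)) {γ : ℝ}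
    (hγ : 0 ≤ γ) : LvlBd w 0 γ := by
  intro Y
  have h0 : amp w (Fin 0) Y = 0 := by
    ext ξ i
    exact i.elim0
  rw [h0, norm_zero]
  positivity

/-- Little Grothendieck inequality. -/
theorem main_gt : St_gt.{u, v} := prove_gt (prove_gtsa prove_fourth prove_trunc)

/-- The no-trace theorem. -/
theorem notrace (B : Type u) [CStarAlgebra B] [PartialOrder B] [StarOrderedRing B]
    (ht : ¬ ∃ τ : B →ₗ[ℂ] ℂ, IsTracialState τ)
    (H : Type v) [NormedAddCommGroup H] [InnerProductSpace ℂ H] [CompleteSpace H]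
    (u : B →ₗ[ℂ] (H →L[ℂ] H)) (hu : IsHom u) (c : ℝ) (hc : 0 ≤ c) (hb : ∀ X, ‖u X‖ ≤ c * ‖X‖)
    (m : ℕ) : LvlBd u m (16 * c ^ 4) := by
  obtain ⟨n, a, δ, hδ, ha⟩ := p_A_hb B ht
  obtain ⟨k, r, ρ, hρ0, hρ1, hr1, hr2⟩ := p_A_fam B n a δ hδ ha
  exact p_A_mat main_gt (p_A_col main_gt) B H u hu c hc hb (p_A_word B k r ρ hρ0 hρ1 hr1 hr2) m

theorem main_KA : KA_final.{u, v} := by
  have hgt : St_gt.{u, v} := main_gt
  have hcol : T2_col.{u, v} := prove2_col hgt
  have hdix : T2_dix.{u, v} := prove2_dix prove_dix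
  have hphtr : St_phtr.{u} := prove_phtr prove_orth prove_expand
  have hdet : T2_det.{u, v} := prove2_det
  have hfam : KA_fam.{u} := proveA_fam proveA_fam1
  have hword : K_word.{u} := prove3_word prove3_indep prove3_avgone
  have hgram : K_gram.{u} := prove3_gram hword prove3_path prove3_entries
  have hrand : KA_rand.{u} := proveA_rand hfam prove3_adj hgram
  have hblock : K_block.{u, v} := prove3_block hgt hcol hdix
  have hembed : K_embed.{u, v} := prove3_embed hblock
  have hwcol : K_wcol.{u, v} := prove3_wcol hcol hdix prove3_level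
  have hgen : K_generic.{u, v} := prove3_generic hcol hdix hwcol (prove3_fourier prove3_expand)
    prove3_pars
  have horb : K_orbit.{u, v} := prove3_orbit hgen prove3_crude prove3_vmap hdix
  have hunit : KA_unit.{u, v} := proveA_unit hrand hembed hdet hphtr horb prove3_crude hdix
  have hmain : KA_main.{u, v} := proveA_main hunit prove3_flat
  exact proveA_final hmain prove3_sim prove3_units prove3_nest prove3_transport

theorem main_dich : B_dich.{u} :=
  p_B_dich p_B_dk p_B_minsum (p_B_trsmall p_B_minle p_T_sub) p_T_sub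

theorem main_small : B_small.{u, v} :=
  p_B_small p_B_minsum (p_B_mat p_B_scal p_B_minle) (p_B_fin prove3_sim prove3_transport)

/-- Bounded homomorphisms of fibre algebras are completely bounded. -/
theorem g_fib : G_fib.{u, v} := by
  intro B _ _ _ hB H _ _ _ u hu c hc hb m
  have hc0 : 0 ≤ c := by linarith
  rcases Nat.eq_zero_or_pos m with rfl | hm
  · exact lvl_zero u (by positivity)
  by_cases hs : ∃ K, Small (1 : B) K
  · obtain ⟨K, hK⟩ := hs
    refine lvl_mono (main_small B hB K hK H u hu c hc0 hb m) ?_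
    calc c ^ 2 ≤ c ^ 25 := pow_le_pow_right₀ hc (by norm_num)
      _ ≤ 432 * c ^ 25 := by nlinarith [pow_nonneg hc0 25]
  have hns : ∀ K, ¬ Small (1 : B) K := fun K hK => hs ⟨K, hK⟩
  by_cases ht : ∃ τ : B →ₗ[ℂ] ℂ, IsTracialState τ
  · obtain ⟨τ, hτ⟩ := ht
    obtain ⟨k, hk⟩ : ∃ k : ℕ, 25920 * (2 * m) ^ 11 ≤ 2 ^ k :=
      ⟨_, (Nat.lt_two_pow_self (n := 25920 * (2 * m) ^ 11)).le⟩
    obtain ⟨f, r, hf, hr, hfr, hsum, heqv, hsub, htr, hnsf⟩ := main_dich B hB τ hτ hns k
    let i0 : Fin (2 ^ k) := ⟨0, by positivity⟩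
    have hne : f i0 ≠ 0 := by
      intro h0
      have := htr i0
      rw [h0, map_zero] at this
      simp at this
    obtain ⟨C, _, _, _, ι, hι⟩ := p_C_exists B (f i0) (hf.1 i0).1
    obtain ⟨hC, hCs⟩ := p_C_fib p_C_ord B C ι (f i0) hι hne hB
    obtain ⟨τ', hτ'⟩ := p_C_tr B C ι (f i0) τ hι hτ (htr i0)
    have hD : HasDixmier τ' := p_B_dix p_B_step C hC τ' hτ'
    have hO : HasOrthA τ' := p_B_orth C τ' hτ'
      (main_dich C hC τ' hτ' fun K hK => hnsf i0 K (hCs K hK))
    obtain ⟨Φ, hΦ⟩ := p_C_units B C (2 ^ k) f i0 ι hι hf heqv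
    have hSub : Sub (1 - ∑ i, f i) (∑ i, f i) := by
      obtain ⟨v, hv1, hv2⟩ := hsub i0
      refine ⟨v, ?_, ?_⟩
      · rw [hv1, ← hsum]
        abel
      · rw [← hv2, ← mul_assoc, Finset.sum_mul, Finset.sum_eq_single i0]
        · rw [(hf.1 i0).1.2]
        · intro j _ hj
          exact hf.2 j i0 hj
        · simp
    have h := p_C_ext prove3_level B (CStarMatrix (Fin (2 ^ k)) (Fin (2 ^ k)) C) Φ (∑ i, f i) hΦ
      hSub H u hu c (216 * c ^ 23) hc0 (by positivity) hb m
      (fun K _ _ _ w hw hwb => main_KA C τ' hτ' hD hO K (2 ^ k) (2 * m) (by positivity) hk w hw c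
        hc hwb)
    refine lvl_mono h (le_of_eq (by ring))
  · refine lvl_mono (notrace B ht H u hu c hc0 hb m) ?_
    have h4 : c ^ 4 ≤ c ^ 25 := pow_le_pow_right₀ hc (by norm_num)
    nlinarith [pow_nonneg hc0 25]

/-- Concrete von Neumann algebras. -/
theorem main_V : V_main.{u} :=
  p_V_main (p_V_spec prove5_range) (p_V_comp prove5_polar prove5_chain p_V_cent)
    (p_V_half prove5_chain (p_V_comp prove5_polar prove5_chain p_V_cent))

/-- Fibres of von Neumann algebras: homomorphisms of the images of a von Neumann algebra under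
*-homomorphisms that map the centre to scalars. -/
theorem g_fibre (H : Type u) [NormedAddCommGroup H] [InnerProductSpace ℂ H] [CompleteSpace H]
    (M : VonNeumannAlgebra H)
    (B : Type u) [CStarAlgebra B] [PartialOrder B] [StarOrderedRing B]
    (φ : M.toStarSubalgebra →⋆ₐ[ℂ] B) (hφ : Function.Surjective φ)
    (hz : ∀ z : M.toStarSubalgebra, (∀ a, z * a = a * z) → ∃ l : ℂ, φ z = algebraMap ℂ B l)
    (K : Type v) [NormedAddCommGroup K] [InnerProductSpace ℂ K] [CompleteSpace K]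
    (w : B →ₗ[ℂ] (K →L[ℂ] K)) (hw : IsHom w) (c : ℝ) (hc : 1 ≤ c) (hb : ∀ b, ‖w b‖ ≤ c * ‖b‖)
    (m : ℕ) : LvlBd w m (432 * c ^ 25) := by
  by_cases h1 : (1 : B) ≠ 0
  · letI P : PartialOrder M.toStarSubalgebra := CStarAlgebra.spectralOrder M.toStarSubalgebra
    haveI S : StarOrderedRing M.toStarSubalgebra :=
      CStarAlgebra.spectralOrderedRing M.toStarSubalgebra
    have hM : IsVN M.toStarSubalgebra := main_V H M
    have hB : IsFib B := p_Q_fib p_Q_lift M.toStarSubalgebra B φ hM hφ h1 hz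
    exact g_fib B hB K w hw c hc hb m
  · rw [not_not] at h1
    intro Y
    have hY : Y = 0 := by
      ext i j
      have : (Y i j : B) = 0 := by rw [← mul_one (Y i j), h1, mul_zero]
      exact this
    rw [hY, map_zero, norm_zero, norm_zero, mul_zero]

end H711R2.KG
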